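import Pool.Agent.Run7.h414.DP.Fam
import Pool.Agent.Run7.h414.DP.Gen
import Pool.Agent.N794.CG.Dom

set_option autoImplicit false

/-! Determinantal digits: the decay of the characteristic function, in the form used in the moment theorems. -/

namespace Pool.Agent.Run7.h414.DP
open Finset
open Pool.Agent.H807R2.Dav
open Pool.Agent.TH872.Mir (Far farCount)
open Pool.Agent.R459.Eq (Decays)
open Pool.Agent.N794.CG (Dom Mostly)

/-- the decay of the characteristic function -/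
theorem dc_decays (b L : ℕ) (hb : 2 ≤ b) (η : ℝ) (hη : 0 < η) : ∃ γ : ℝ, 0 < γ ∧ γ < 1 ∧
    ∀ k p, DC b L η k p → ∀ κ cc : ℤ,
      Decays b ((b ^ (L + 1)).factorial) L k γ κ (range (b ^ k)) p (fun n : ℕ => cc + κ * (n : ℤ)) := by
  classical
  have hBr : (2 : ℝ) ≤ b := by exact_mod_cast hb
  obtain ⟨F, hF⟩ : ∃ F, F = (b ^ (L + 1)).factorial := ⟨_, rfl⟩
  have hF1 : (1 : ℝ) ≤ (F : ℝ) := by rw [hF]; exact_mod_cast Nat.factorial_pos _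
  obtain ⟨δ0, hδ0⟩ : ∃ δ0, δ0 = 1 / (b : ℝ) ^ 2 / F := ⟨_, rfl⟩
  have hδ00 : 0 < δ0 := by rw [hδ0]; positivity
  have hδ1 : δ0 ≤ 1 / 2 := by
    rw [hδ0]
    have h1 : 1 / (b : ℝ) ^ 2 / F ≤ 1 / (b : ℝ) ^ 2 := div_le_self (by positivity) hF1
    have h2 : 1 / (b : ℝ) ^ 2 ≤ 1 / 2 := by
      apply one_div_le_one_div_of_le (by norm_num)
      nlinarith
    linarith
  refine ⟨Real.exp (- (4 * (δ0 / (b : ℝ) ^ (2 * L)) ^ 2 * η / 2)), Real.exp_pos _, ?_, ?_⟩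
  · rw [Real.exp_lt_one_iff]
    have : 0 < 4 * (δ0 / (b : ℝ) ^ (2 * L)) ^ 2 * η / 2 := by positivity
    linarith
  intro k p hp κ cc
  refine ⟨fun n _ => DC_nonneg hp n, DC_sum hp, fun θ N hN _ => ?_⟩
  have h1 := char_card b L hb η δ0 hη hδ00 hδ1 hp ((κ : ℝ) * θ) N (by
    rw [← hF] at hN
    refine (by rw [mul_add, mul_one] : L * N + L = L * (N + 1)).le.trans (hN.trans ?_)
    unfold farCount
    apply card_le_card
    intro j hj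
    rw [mem_filter] at hj ⊢
    refine ⟨hj.1, ?_⟩
    rw [hδ0, hF]
    apply farAll_of b L (1 / (b : ℝ) ^ 2) _ (by positivity)
    intro n
    rw [← hF]
    exact hj.2 n)
  have h2 : ∑ n ∈ range (b ^ k), (p n : ℂ) * ee (((cc + κ * (n : ℤ) : ℤ) : ℝ) * θ) =
      ee ((cc : ℝ) * θ) * ∑ n ∈ range (b ^ k), (p n : ℂ) * ee ((n : ℝ) * ((κ : ℝ) * θ)) := by
    rw [mul_sum]
    apply sum_congr rfl
    intro n _
    have : (((cc + κ * (n : ℤ) : ℤ) : ℝ) * θ) = (cc : ℝ) * θ + (n : ℝ) * ((κ : ℝ) * θ) := by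
      push_cast
      ring
    rw [this, ee_add]
    ring
  rw [h2, norm_mul, norm_ee, one_mul]
  exact h1

/-- the domination -/
theorem det_dom (b L : ℕ) (hb : 2 ≤ b) (η : ℝ) (hη : 0 < η) : ∃ γ : ℝ, 0 < γ ∧ γ < 1 ∧
    ∀ t k p, DetDigits b L η t k p → ∀ κ cc : ℤ,
      Dom b ((b ^ (L + 1)).factorial) L k γ κ ((k : ℝ) ^ t) (range (b ^ k)) p (fun n : ℕ => cc + κ * (n : ℤ)) := by
  obtain ⟨γ, hγ0, hγ1, h⟩ := dc_decays b L hb η hη
  refine ⟨γ, hγ0, hγ1, fun t k p hp κ cc => ?_⟩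
  obtain ⟨μ, hμ, hpμ⟩ := fam_dc hp
  intro P τ hτ H E hE hbad
  have h1 := H ℕ (range (b ^ k)) μ (fun n : ℕ => cc + κ * (n : ℤ)) (h k μ hμ κ cc) E hE hbad
  calc ∑ i ∈ E, p i ≤ ∑ i ∈ E, (k : ℝ) ^ t * μ i := sum_le_sum fun i _ => (hpμ i).2
    _ = (k : ℝ) ^ t * ∑ i ∈ E, μ i := by rw [mul_sum]
    _ ≤ (k : ℝ) ^ t * τ := mul_le_mul_of_nonneg_left h1 (by positivity)

end Pool.Agent.Run7.h414.DP
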