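import Pool.Agent.Run7.h414.DP.TL
import Pool.Agent.Run7.h414.DP.Dec
import Pool.Agent.Run7.h672.XC.D

set_option autoImplicit false

/-! Determinantal digits: the class of the laws, for the theorems on sums with the elements of dense sets of primes
(`Pool.Agent.Run7.h672.XC`, after the starting library `Pool.Agent.N625.PT`). -/

namespace Pool.Agent.Run7.h414.DP
open Finset
open Pool.Agent.TH872
open Pool.Agent.TH872.Mir (Far farCount)
open Pool.Agent.Y958.SP (nn)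
open Pool.Agent.H807R2.Dav
open Pool.Agent.Y885 (TLaw)
open Pool.Agent.N625.PT (Mf Mf_pos far_low nn_rat)
open Pool.Agent.Run7.h672.XC (RCls)

lemma mf_mono (b L L' : ℕ) (hb : 1 ≤ b) (hL : L ≤ L') (κ : ℤ) : Mf b L κ ≤ Mf b L' κ := by
  unfold Mf
  apply Nat.mul_le_mul_left
  rw [Int.natAbs_mul, Int.natAbs_mul, Int.natAbs_natCast, Int.natAbs_natCast]
  apply Nat.mul_le_mul_right
  exact Nat.factorial_le (Nat.pow_le_pow_right hb hL)

/-- the class of the determinantal digits -/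
theorem dc_rcls (b L : ℕ) (hb : 2 ≤ b) (η : ℝ) (hη : 0 < η) : RCls b (2 * L + 1) 0 (DC b L η) := by
  obtain ⟨γ, hγ0, hγ1, hdec⟩ := dc_decays b L hb η hη
  refine ⟨hb, by omega, fun k p hp v => DC_nonneg hp v, fun k p hp => DC_sum hp, fun κ hκ W V => ?_,
    γ ^ ((1 : ℝ) / (L + 1)), Real.rpow_pos_of_pos hγ0 _, Real.rpow_lt_one hγ0.le hγ1 (by positivity), ?_⟩
  · obtain ⟨c, m₀, h⟩ := dc_tlaw b L hb η hη κ hκ 15 le_rfl W V
    refine ⟨c, m₀, fun m hm e he h' hh1 hh2 p hp cc => h m hm e he h' hh1 ?_ p hp cc⟩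
    refine (Nat.log_mono_right ?_).trans hh2
    exact Nat.mul_le_mul_right _ (mf_mono b (L + 1) (2 * L + 1) (by omega) (by omega) κ)
  intro k p hp S hS m hm hd hLk a ha1 ha2
  have hL := DC_pos hp
  obtain ⟨μ, hμ⟩ : ∃ μ, μ = γ ^ ((1 : ℝ) / (L + 1)) := ⟨_, rfl⟩
  rw [← hμ]
  have hμ0 : 0 < μ := by rw [hμ]; exact Real.rpow_pos_of_pos hγ0 _
  have hμ1 : μ ≤ 1 := by rw [hμ]; exact (Real.rpow_lt_one hγ0.le hγ1 (by positivity)).le
  have hμL : μ ^ (L + 1) = γ := by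
    rw [hμ, ← Real.rpow_natCast, ← Real.rpow_mul hγ0.le]
    push_cast
    rw [one_div_mul_cancel (by positivity), Real.rpow_one]
  obtain ⟨d, hdd⟩ : ∃ d, d = ∏ q ∈ S, q := ⟨_, rfl⟩
  rw [← hdd] at hd ha2 ⊢
  have hd1 : 1 ≤ d := by omega
  have hd0 : (0 : ℝ) < d := by exact_mod_cast hd1
  obtain ⟨F, hF⟩ : ∃ F, F = (b ^ (L + 1)).factorial := ⟨_, rfl⟩
  have hcop : ∀ j : ℕ, Nat.Coprime d (F * b ^ j) := by
    intro j
    rw [hdd]
    apply Nat.Coprime.prod_left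
    intro q hq
    obtain ⟨hqp, hqb⟩ := hS q hq
    have hb1 : b ^ (L + 1) ≤ b ^ (2 * L + 1) := Nat.pow_le_pow_right (by omega) (by omega)
    have hb2 : b ≤ b ^ (2 * L + 1) := Nat.le_self_pow (by omega) b
    rw [Nat.Prime.coprime_iff_not_dvd hqp, hF]
    intro hdv
    rcases (hqp.dvd_mul).1 hdv with h1 | h1
    · rw [hqp.dvd_factorial] at h1
      omega
    · have h2 := Nat.le_of_dvd (by omega) (hqp.dvd_of_dvd_pow h1)
      omega
  have hfar := far_low b F k m hb ((a : ℝ) / d) (by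
    intro j
    have e1 : (F : ℝ) * ((b : ℝ) ^ j * ((a : ℝ) / d)) = (((F * b ^ j * a : ℕ) : ℤ) : ℝ) / d := by
      push_cast
      ring
    rw [e1]
    refine lt_of_lt_of_le ?_ (nn_rat _ d hd1 ?_)
    · apply one_div_lt_one_div_of_lt hd0
      exact_mod_cast hd
    · intro hdv
      have h1 : d ∣ F * b ^ j * a := by exact_mod_cast hdv
      have h2 := (hcop j).dvd_of_dvd_mul_left h1
      have h3 := Nat.le_of_dvd (by omega) h2
      omega)
  rw [hF] at hfar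
  obtain ⟨x, hx⟩ : ∃ x, x = k / m := ⟨_, rfl⟩
  rw [← hx] at hfar hLk ⊢
  have hxk : x ≤ k := by rw [hx]; exact Nat.div_le_self _ _
  obtain ⟨N, hN⟩ : ∃ N, N = x / L - 1 := ⟨_, rfl⟩
  have hxL : 1 ≤ x / L := (Nat.one_le_div_iff hL).2 (by omega)
  have hN1 : N + 1 = x / L := by omega
  have hLN : L * (N + 1) ≤ x := by rw [hN1]; exact Nat.mul_div_le x L
  have hLN2 : x < L * (N + 1) + L := by
    rw [hN1]
    exact Nat.lt_mul_div_succ x hL
  have h1 := (hdec k p hp 1 0).char ((a : ℝ) / d) N (by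
    rw [Int.cast_one, one_mul]
    exact hLN.trans hfar) (by
    have : L * N ≤ L * (N + 1) := Nat.mul_le_mul_left _ (by omega)
    omega)
  have h2 : ∑ v ∈ range (b ^ k), (p v : ℂ) * ee ((((0 : ℤ) + 1 * (v : ℤ) : ℤ) : ℝ) * ((a : ℝ) / d)) =
      ∑ v ∈ range (b ^ k), (p v : ℂ) * ee (v * ((a : ℝ) / d)) := by
    apply sum_congr rfl
    intro v _
    push_cast
    rw [zero_add, one_mul]
  rw [h2] at h1
  refine h1.trans ?_
  rw [pow_zero, one_mul, ← hμL, ← pow_mul]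
  apply pow_le_pow_of_le_one hμ0.le hμ1
  have h3 : (L + 1) * N = L * N + N := by ring
  have h4 : L * (N + 1) = L * N + L := by ring
  omega

end Pool.Agent.Run7.h414.DP
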