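import Pool.Agent.N625.DY.G
import Pool.Agent.Run7.h414.DP.Fam

set_option autoImplicit false

/-! Determinantal digits: the class in terms of the range `N`, the number of the digits, dominated families. -/

namespace Pool.Agent.Run7.h414.DP
open Finset
open Pool.Agent.N625.DY (Kc cls_one)
open Pool.Agent.N469.PT (OneLaw)

/-- the one shift estimate for determinantal digits -/
theorem dc_one (b L : ℕ) (η : ℝ) (hb : 2 ≤ b) (hη : 0 < η) (κ : ℕ) (hκ : 1 ≤ κ) (B Bc U : ℕ) :
    OneLaw (Kc b B (DC b L η)) κ Bc U :=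
  cls_one κ (dc_cls b L η hb hη (κ : ℤ) (by exact_mod_cast (by omega : κ ≠ 0))) B Bc U

/-- the number of the digits -/
lemma digits_le (b B N k : ℕ) (hb : 2 ≤ b) (hN : B + 64 ≤ N) (h : b ^ k ≤ B * N) : (k : ℝ) ≤ Real.log N ^ 2 := by
  have hN64 : (64 : ℝ) ≤ N := by exact_mod_cast (by omega : 64 ≤ N)
  have hN0 : (0 : ℝ) < N := by linarith
  have hlog : 4 ≤ Real.log N := by
    rw [Real.le_log_iff_exp_le hN0]
    refine le_trans ?_ hN64
    have e1 : Real.exp 4 = Real.exp 1 ^ 4 := by rw [← Real.exp_nat_mul]; norm_num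
    rw [e1]
    have e2 := Real.exp_one_lt_d9
    have e3 := Real.exp_pos 1
    calc Real.exp 1 ^ 4 ≤ (2.72 : ℝ) ^ 4 := pow_le_pow_left₀ e3.le (by linarith) 4
      _ ≤ 64 := by norm_num
  have h1 : 2 ^ k ≤ N * N := by
    calc 2 ^ k ≤ b ^ k := Nat.pow_le_pow_left hb k
      _ ≤ B * N := h
      _ ≤ N * N := Nat.mul_le_mul_right _ (by omega)
  have h2 : (k : ℝ) * Real.log 2 ≤ 2 * Real.log N := by
    have h3 : Real.log ((2 : ℝ) ^ k) ≤ Real.log ((N : ℝ) * N) := by
      apply Real.log_le_log (by positivity)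
      exact_mod_cast h1
    rw [Real.log_pow, Real.log_mul hN0.ne' hN0.ne'] at h3
    linarith
  have h4 := Real.log_two_gt_d9
  have hk : (0 : ℝ) ≤ k := Nat.cast_nonneg k
  nlinarith

/-- a dominated weight, in terms of `log N` -/
lemma dom_log {t U k N : ℕ} {x y : ℝ} (hx0 : 0 ≤ x) (hk : (k : ℝ) ≤ Real.log N ^ 2) (hN : 3 ≤ N)
    (hx : x ≤ 1 / Real.log N ^ (U + 2 * t)) (hy : y ≤ (k : ℝ) ^ t * x) : y ≤ 1 / Real.log N ^ U := by
  have hL : 1 ≤ Real.log N := by
    rw [Real.le_log_iff_exp_le (by exact_mod_cast (by omega : 0 < N))]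
    have : (3 : ℝ) ≤ N := by exact_mod_cast hN
    linarith [Real.exp_one_lt_d9]
  have hL0 : 0 < Real.log N := by linarith
  calc y ≤ (k : ℝ) ^ t * x := hy
    _ ≤ (Real.log N ^ 2) ^ t * (1 / Real.log N ^ (U + 2 * t)) := by
        apply mul_le_mul _ hx hx0 (by positivity)
        exact pow_le_pow_left₀ (Nat.cast_nonneg _) hk t
    _ = 1 / Real.log N ^ U := by
        rw [← pow_mul, pow_add]
        field_simp

end Pool.Agent.Run7.h414.DP
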