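import Pool.Agent.Run7.h414.DP.Dec

set_option autoImplicit false

/-! Determinantal digits: properties of almost all members. -/

namespace Pool.Agent.Run7.h414.DP
open Finset
open Pool.Agent.N794.CG (Mostly)

open Classical in
/-- The `p`-weight of the integers `v < b ^ k` for which `c + κ v` does not have the property `P` is at most `τ`. -/
def AlmostD (b k : ℕ) (p : ℕ → ℝ) (κ c : ℤ) (τ : ℝ) (P : ℤ → Prop) : Prop :=
  ∑ v ∈ range (b ^ k), (if P (c + κ * v) then 0 else p v) ≤ τ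

lemma almostD_of {b k : ℕ} {p : ℕ → ℝ} {κ c : ℤ} {τ : ℝ} {P Q : ℤ → Prop}
    (h : Mostly (range (b ^ k)) p (fun v => c + κ * (v : ℕ)) τ P) (hPQ : ∀ n, P n → Q n) : AlmostD b k p κ c τ Q := by
  classical
  have h1 := h ((range (b ^ k)).filter (fun v : ℕ => ¬ Q (c + κ * v))) (filter_subset _ _)
    (fun i hi hP => (mem_filter.1 hi).2 (hPQ _ hP))
  unfold AlmostD
  refine le_trans (le_of_eq ?_) h1
  rw [sum_filter]
  apply sum_congr rfl
  intro v _
  by_cases hv : Q (c + κ * v)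
  · rw [if_pos hv, if_neg (not_not.2 hv)]
  · rw [if_neg hv, if_pos hv]

lemma almostD_mono {b k : ℕ} {p : ℕ → ℝ} {κ c : ℤ} {τ : ℝ} {P Q : ℤ → Prop} (hp : ∀ v, 0 ≤ p v) (h : AlmostD b k p κ c τ P)
    (hPQ : ∀ n, P n → Q n) : AlmostD b k p κ c τ Q := by
  classical
  unfold AlmostD at h ⊢
  refine le_trans (sum_le_sum fun v _ => ?_) h
  by_cases h1 : P (c + κ * v)
  · rw [if_pos h1, if_pos (hPQ _ h1)]
  · rw [if_neg h1]
    split_ifs
    · exact hp v
    · exact le_rfl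

lemma det_nonneg {b L : ℕ} {η : ℝ} {t k : ℕ} {p : ℕ → ℝ} (h : DetDigits b L η t k p) (v : ℕ) : 0 ≤ p v := by
  obtain ⟨_, _, _, _, _, _, _, hp⟩ := h
  exact (hp v).1

end Pool.Agent.Run7.h414.DP
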