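import Pool.Agent.Run7.h414.DP.Alm
import Pool.Agent.N794.CG.Apps

set_option autoImplicit false

/-! Determinantal digits: the theorems on dominated families. -/

namespace Pool.Agent.Run7.h414.DP
open Finset
open Pool.Agent.R459.Eq
open Pool.Agent.N794.CG (Mostly dom_fine dom_two_count dom_twist_count)

/-- many systems of functions of residues -/
theorem fine_det (δ : ℝ) (hδ : 0 < δ) (hδ1 : δ ≤ 1 / 2) (b L : ℕ) (hb : 2 ≤ b) (η : ℝ) (hη : 0 < η) :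
    ∃ W : ℕ, 1 ≤ W ∧ ∀ κ : ℤ, κ ≠ 0 → ∃ X₀ : ℕ, ∀ X : ℕ, X₀ ≤ X → ∀ (t k : ℕ) (p : ℕ → ℝ),
      DetDigits b L η t k p → ∀ (c : ℤ) (g : ℕ → ℕ → ℤ → ℝ), (∀ j, Sysb (g j)) → Few g →
      Mostly (range (b ^ k)) p (fun v => c + κ * (v : ℕ)) ((k : ℝ) ^ t * (2 * (X : ℝ) ^ (-(δ / 2))))
        (fun n => ∀ x : ℕ, X ≤ x → x ^ W ≤ b ^ k →
      (∀ j : ℕ, j ≤ x → |∑ q ∈ pri x, (g j q n - mean q (g j q))| ≤ (x : ℝ) ^ (1 / 2 + δ)) ∧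
      (∀ j : ℕ, (j : ℝ) ≤ (x : ℝ) ^ (δ / 2) →
        |∑ q ∈ pri x, (g j q n - mean q (g j q))| ≤ √(max 1 (Vs (g j) (2 * x))) * (x : ℝ) ^ δ)) := by
  obtain ⟨γ, hγ0, hγ1, hdom⟩ := det_dom b L hb η hη
  obtain ⟨W, hW, J⟩ := dom_fine b hb L γ hγ0 hγ1 δ hδ hδ1
  refine ⟨W, hW, fun κ hκ => ?_⟩
  obtain ⟨X₀, K⟩ := J ((b ^ (L + 1)).factorial) κ (Nat.factorial_pos _) hκ
  exact ⟨X₀, fun X hX t k p hp c g hg hfew => K X hX k _ _ _ _ _ (hdom t k p hp κ c) g hg hfew⟩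

/-- two parameters -/
theorem two_det (δ : ℝ) (hδ : 0 < δ) (hδ1 : δ ≤ 1 / 2) (b L : ℕ) (hb : 2 ≤ b) (η : ℝ) (hη : 0 < η) :
    ∃ W : ℕ, 1 ≤ W ∧ ∀ κ : ℤ, κ ≠ 0 → ∃ X₀ : ℕ, ∀ X : ℕ, X₀ ≤ X → ∀ (t k : ℕ) (p : ℕ → ℝ),
      DetDigits b L η t k p → ∀ (c : ℤ) (R : ℕ → ℕ → ℤ → ℤ → Prop),
    (∀ j p : ℕ, p.Prime → ∀ a a' n n' : ℤ, (p : ℤ) ∣ a - a' → (p : ℤ) ∣ n - n' → (R j p a n ↔ R j p a' n')) →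
    (∀ p : ℕ, p.Prime → ∀ (a n : ℤ) (Q : Finset ℕ), (∀ j ∈ Q, R j p a n) → Q.card ≤ Nat.log 2 p + 3) →
    (∀ a : ℤ, Mostly (range (b ^ k)) p (fun v => c + κ * (v : ℕ)) ((k : ℝ) ^ t * (2 * (X : ℝ) ^ (-(δ / 2)))) (fun n => ∀ x : ℕ, X ≤ x → x ^ W ≤ b ^ k →
      (∀ j : ℕ, j ≤ x → |(cntR (R j) a n x : ℝ) - ∑ p ∈ pri x, dens (R j) a p| ≤ (x : ℝ) ^ (1 / 2 + δ)) ∧
      (∀ j : ℕ, (j : ℝ) ≤ (x : ℝ) ^ (δ / 2) → |(cntR (R j) a n x : ℝ) - ∑ p ∈ pri x, dens (R j) a p| ≤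
        √(max 1 (∑ p ∈ pri (2 * x), dens (R j) a p)) * (x : ℝ) ^ δ))) ∧
    Mostly (range (b ^ k)) p (fun v => c + κ * (v : ℕ)) ((k : ℝ) ^ t * (2 * (X : ℝ) ^ (-(δ / 2)))) (fun a => ∀ x : ℕ, X ≤ x → x ^ W ≤ b ^ k →
      (∀ j : ℕ, j ≤ x → |∑ p ∈ pri x, dens (R j) a p - ∑ p ∈ pri x, dens2 (R j) p| ≤ (x : ℝ) ^ (1 / 2 + δ)) ∧
      (∀ j : ℕ, (j : ℝ) ≤ (x : ℝ) ^ (δ / 2) → |∑ p ∈ pri x, dens (R j) a p - ∑ p ∈ pri x, dens2 (R j) p| ≤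
        √(max 1 (∑ p ∈ pri (2 * x), dens2 (R j) p)) * (x : ℝ) ^ δ)) := by
  obtain ⟨γ, hγ0, hγ1, hdom⟩ := det_dom b L hb η hη
  obtain ⟨W, hW, J⟩ := dom_two_count b hb L γ hγ0 hγ1 δ hδ hδ1
  refine ⟨W, hW, fun κ hκ => ?_⟩
  obtain ⟨X₀, K⟩ := J ((b ^ (L + 1)).factorial) κ (Nat.factorial_pos _) hκ
  exact ⟨X₀, fun X hX t k p hp c R hR hfew => K X hX k _ _ _ _ _ (hdom t k p hp κ c) R hR hfew⟩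

open Classical in
/-- twisted counts -/
theorem twist_det (δ : ℝ) (hδ : 0 < δ) (hδ1 : δ ≤ 1 / 2) (b L : ℕ) (hb : 2 ≤ b) (η : ℝ) (hη : 0 < η) :
    ∃ W : ℕ, 1 ≤ W ∧ ∀ κ : ℤ, κ ≠ 0 → ∃ X₀ : ℕ, ∀ X : ℕ, X₀ ≤ X → ∀ (t k : ℕ) (p : ℕ → ℝ),
      DetDigits b L η t k p → ∀ (c : ℤ),
    ∀ (T : ℕ → Set ℕ) (ε : ℕ → ℤ), (∀ p, ε p = 1 ∨ ε p = -1) → (∀ p j j', p ∈ T j → p ∈ T j' → j = j') →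
    Mostly (range (b ^ k)) p (fun v => c + κ * (v : ℕ)) ((k : ℝ) ^ t * (2 * (X : ℝ) ^ (-(δ / 2)))) (fun n => ∀ x : ℕ, X ≤ x → x ^ W ≤ b ^ k → ∀ j : ℕ, (j : ℝ) ≤ (x : ℝ) ^ (δ / 2) →
      |(((pri x).filter (fun p => p ≠ 2 ∧ p ∈ T j ∧ jacobiSym n p = ε p)).card : ℝ) -
        1 / 2 * ((pri x).filter (fun p => p ≠ 2 ∧ p ∈ T j)).card| ≤
        2 * √(max 1 ((((pri (2 * x)).filter (fun p => p ≠ 2 ∧ p ∈ T j)).card : ℝ))) * (x : ℝ) ^ δ) := by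
  obtain ⟨γ, hγ0, hγ1, hdom⟩ := det_dom b L hb η hη
  obtain ⟨W, hW, J⟩ := dom_twist_count b hb L γ hγ0 hγ1 δ hδ hδ1
  refine ⟨W, hW, fun κ hκ => ?_⟩
  obtain ⟨X₀, K⟩ := J ((b ^ (L + 1)).factorial) κ (Nat.factorial_pos _) hκ
  exact ⟨X₀, fun X hX t k p hp c T ε hε hT => K X hX k _ _ _ _ _ (hdom t k p hp κ c) T ε hε hT⟩

end Pool.Agent.Run7.h414.DP
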