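import Pool.Agent.Run7.h414.DP.Dec
import Pool.Agent.R557.AD.Few

set_option autoImplicit false

/-! Determinantal digits: few large Fourier coefficients, with a power saving. -/

namespace Pool.Agent.Run7.h414.DP
open Finset
open Pool.Agent.H807R2.Dav
open Pool.Agent.TH872.Mir (Far farCount)
open Pool.Agent.Results.MP_122e00_nt.SparseRandomShifts (FewLarge φ)

/-- few large Fourier coefficients (after `Pool.Agent.N625.PT.few_flex`) -/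
theorem few_det (b L : ℕ) (hb : 2 ≤ b) (η : ℝ) (hη0 : 0 < η)
    (κ₁ : ℝ) (hκ₁ : 0 < κ₁) : ∃ θ : ℝ, 0 < θ ∧ θ ≤ 1 ∧ ∀ μ : ℤ, μ ≠ 0 → ∃ k₀ : ℕ, ∀ k : ℕ, k₀ ≤ k → ∀ N : ℕ, b ^ k ≤ N →
    (N : ℝ) ≤ (b : ℝ) ^ ((1 + θ) * k) → ∀ p, DC b L η k p → ∀ cc : ℤ,
    FewLarge (fun v : {v // v ∈ range (b ^ k)} => p v.1) (fun v => cc + μ * (v.1 : ℕ)) N
      ((N : ℝ) ^ (-θ)) ((N : ℝ) ^ κ₁) := by
  classical
  have hBr : (2 : ℝ) ≤ b := by exact_mod_cast hb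
  have hB0 : (0 : ℝ) < b := by linarith
  obtain ⟨l, hl0, hl1, hchar⟩ := dc_decays b L hb η hη0
  obtain ⟨v, hv⟩ := exists_pow_lt_of_lt_one (show 0 < (1 / (b : ℝ)) ^ 2 by positivity) hl1
  have hF : 1 ≤ (b ^ (L + 1)).factorial := Nat.factorial_pos _
  obtain ⟨θ, hθ0, hθ1, h1⟩ := Pool.Agent.R501.SP.few_far b ((b ^ (L + 1)).factorial) (L * v) L hb hF 1 one_pos κ₁ hκ₁
  refine ⟨θ, hθ0, hθ1, fun μ hμ => ?_⟩
  obtain ⟨k₀, h2⟩ := h1 μ hμ
  refine ⟨k₀ + 1, fun k hk N hN1 hN2 p hp cc S hS hsep => ?_⟩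
  refine h2 k (by omega) N hN1 hN2 S (fun a ha => ?_) hsep
  obtain ⟨g1, g2, h3⟩ := hS a ha
  refine ⟨g1, g2, fun n _ hthr => ?_⟩
  have h0 : ‖φ (fun v : {v // v ∈ range (b ^ k)} => p v.1) (fun v => cc + μ * (v.1 : ℕ)) a‖ =
      ‖∑ v ∈ range (b ^ k), (p v : ℂ) * ee (((cc + μ * v : ℤ) : ℝ) * a)‖ := by
    rw [← Finset.sum_coe_sort (range (b ^ k)) (fun v : ℕ => (p v : ℂ) * ee (((cc + μ * v : ℤ) : ℝ) * a))]
    rfl
  rw [h0] at h3
  by_contra hcon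
  push Not at hcon
  have hk' : L * (v * n) ≤ k := by
    have h5 : farCount b ((b ^ (L + 1)).factorial) k ((μ : ℝ) * a) ≤ k := by
      unfold farCount
      exact (card_filter_le _ _).trans (by rw [card_range])
    have h6 : L * (v * n) = L * v * n := by ring
    omega
  have h4 := (hchar k p hp μ cc).char a (v * n) (by
    have h6 : L * (v * n + 1) = L * v * n + L := by ring
    rw [h6]
    exact hcon) hk'
  have h6 : l ^ (v * n) ≤ (1 / (b : ℝ)) ^ n * (1 / (b : ℝ)) ^ n := by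
    rw [pow_mul, ← mul_pow, ← pow_two]
    exact pow_le_pow_left₀ (by positivity) hv.le _
  have h7 : (1 / (b : ℝ)) ^ n * (1 / (b : ℝ)) ^ n ≤ (N : ℝ) ^ (-θ) := by
    have e1 : (1 / (b : ℝ)) ^ n ≤ 1 := by
      apply pow_le_one₀ (by positivity)
      rw [div_le_one hB0]
      linarith
    calc (1 / (b : ℝ)) ^ n * (1 / (b : ℝ)) ^ n ≤ 1 * (1 / (b : ℝ)) ^ n := mul_le_mul_of_nonneg_right e1 (by positivity)
      _ ≤ _ := by rw [one_mul]; exact hthr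
  linarith

end Pool.Agent.Run7.h414.DP
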